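import Mathlib
import Pool.Agent.H27.T3

set_option autoImplicit false

namespace Pool.Agent.Results.MP_37447d_al.Growth

open Finset Pointwise

theorem result (G : Type) [Group G] [DecidableEq G] (L : G → ℝ) (Q : Polynomial ℝ)
    (hQ : ∀ r > 0, {g | L g ≤ r}.Finite ∧ Real.log ({g | L g ≤ r}.ncard) ≤ Q.eval r)
    (P : Polynomial ℝ) (hP : ∀ r > 0, ∀ S X : Finset G, (∀ s ∈ S, L s ≤ r) →
      ∑ g ∈ S * X, (((S ×ˢ X).filter fun p => p.1 * p.2 = g).card : ℝ) ^ 2 ≤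
        P.eval r * S.card * X.card) :
    ∃ R : Polynomial ℝ, ∀ r > 0, ∀ φ ψ : G → ℂ, (∀ g, r < L g → φ g = 0) →
      Summable (fun g => ‖ψ g‖ ^ 2) →
      Summable (fun g => ‖∑' h, φ h * ψ (h⁻¹ * g)‖ ^ 2) ∧
      ∑' g, ‖∑' h, φ h * ψ (h⁻¹ * g)‖ ^ 2 ≤ R.eval r * (∑' g, ‖φ g‖ ^ 2) * ∑' g, ‖ψ g‖ ^ 2 := by
  refine ⟨(2 * ((Q ^ 2 + 2) * (4 * (P ^ 2 + 1) * (2 * (Q ^ 2 + 2) + 1) + 1) + 1)) ^ 2,
    fun r hr φ ψ hφ hψ => ?_⟩
  obtain ⟨hf, hl⟩ := hQ r hr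
  set F := hf.toFinset
  have mem : ∀ g, g ∈ F ↔ L g ≤ r := fun g => by simp [F]
  have zero : ∀ g ∉ F, φ g = 0 := fun g hg => hφ g (not_le.mp fun k => hg ((mem g).mpr k))
  obtain ⟨J, hJ, hJ'⟩ : ∃ J : ℕ, F.card ≤ 2 ^ J ∧ (J : ℝ) ≤ Q.eval r ^ 2 + 2 := by
    refine ⟨⌈2 * Real.log F.card⌉₊, ?_, ?_⟩
    · rcases Nat.eq_zero_or_pos F.card with h | h
      · rw [h]; positivity
      have h1 : (0 : ℝ) < F.card := by exact_mod_cast h
      have h2 := Nat.le_ceil (2 * Real.log F.card)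
      have h3 := Real.log_two_gt_d9
      have h4 := Real.log_natCast_nonneg F.card
      have : Real.log F.card ≤ Real.log (2 ^ ⌈2 * Real.log F.card⌉₊) := by
        rw [Real.log_pow]; nlinarith
      exact_mod_cast (Real.log_le_log_iff h1 (by positivity)).mp this
    · have h4 := Real.log_natCast_nonneg F.card
      have := Nat.ceil_lt_add_one (show 0 ≤ 2 * Real.log F.card by positivity)
      rw [Set.ncard_eq_toFinset_card _ hf] at hl
      nlinarith [sq_nonneg (Q.eval r - 1)]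
  have hT : ∀ A ⊆ F, ∀ B C : Finset G,
      (((A ×ˢ B ×ˢ C).filter (fun t => t.1 * t.2.1 * t.2.2 = 1)).card : ℝ)
        ≤ (P.eval r ^ 2 + 1) * √(A.card * B.card * C.card) := by
    intro A hA B C
    let n : G → ℝ := fun g => ((A ×ˢ B).filter fun p => p.1 * p.2 = g).card
    have e1 : (((A ×ˢ B ×ˢ C).filter (fun t => t.1 * t.2.1 * t.2.2 = 1)).card : ℝ) =
        ∑ z ∈ C, n z⁻¹ := by
      rw [H27.T3.count, sum_comm]
      refine sum_congr rfl fun z _ => ?_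
      simp only [n, card_filter, sum_product, mul_eq_one_iff_eq_inv]
      push_cast
      exact sum_comm
    have e2 : ∑ z ∈ C, n z⁻¹ ^ 2 ≤ ∑ g ∈ A * B, n g ^ 2 := by
      rw [← sum_image (f := fun g => n g ^ 2) (g := fun z : G => z⁻¹) inv_injective.injOn]
      rw [← sum_filter_ne_zero]
      refine sum_le_sum_of_subset_of_nonneg (fun g hg => ?_) fun _ _ _ => sq_nonneg _
      replace hg := (mem_filter.mp hg).2
      obtain ⟨p, hp⟩ := card_ne_zero.mp fun k : ((A ×ˢ B).filter fun p => p.1 * p.2 = g).card = 0 =>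
        hg (by simp only [n, k]; simp)
      obtain ⟨h1, rfl⟩ := mem_filter.mp hp
      exact mul_mem_mul (mem_product.mp h1).1 (mem_product.mp h1).2
    have e3 := hP r hr A B fun s hs => (mem s).mp (hA hs)
    have e4 := sq_sum_le_card_mul_sum_sq (s := C) (f := fun z => n z⁻¹)
    rw [e1]
    refine (pow_le_pow_iff_left₀ (sum_nonneg fun _ _ => Nat.cast_nonneg _) (by positivity)
      two_ne_zero).mp (e4.trans ?_)
    rw [mul_pow, Real.sq_sqrt (by positivity)]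
    have e5 : P.eval r ≤ (P.eval r ^ 2 + 1) ^ 2 := by
      nlinarith [sq_nonneg (P.eval r - 1), sq_nonneg (P.eval r ^ 2), sq_nonneg (P.eval r)]
    have e6 := mul_le_mul_of_nonneg_right e5 (show (0 : ℝ) ≤ A.card * B.card * C.card by positivity)
    have e7 := mul_le_mul_of_nonneg_left (e2.trans e3) (Nat.cast_nonneg (α := ℝ) C.card)
    nlinarith
  have key : ∀ T : Finset G, ∑ g ∈ T, ‖∑' h, φ h * ψ (h⁻¹ * g)‖ ^ 2 ≤
      (2 * ((Q.eval r ^ 2 + 2) * (4 * (P.eval r ^ 2 + 1) * (2 * (Q.eval r ^ 2 + 2) + 1) + 1) + 1))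
        ^ 2 * (∑' g, ‖φ g‖ ^ 2) * ∑' g, ‖ψ g‖ ^ 2 := by
    intro T
    set c : G → ℂ := fun g => ∑' h, φ h * ψ (h⁻¹ * g)
    have hc : ∀ g, c g = ∑ h ∈ F, φ h * ψ (h⁻¹ * g) := fun g =>
      tsum_eq_sum fun h hh => by rw [zero h hh, zero_mul]
    have h := H27.T3.core F (F⁻¹ * T) T⁻¹ _ (by positivity) J hJ hT φ ψ
      fun z => starRingEnd ℂ (c z⁻¹)
    have s1 : ∀ u : G → ℝ, ∑ z ∈ T⁻¹, u z⁻¹ = ∑ z ∈ T, u z := fun u => by
      rw [inv_def, sum_image inv_injective.injOn]; simp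
    have e1 : ∑ x ∈ F, ∑ y ∈ F⁻¹ * T, ∑ z ∈ T⁻¹, (if x * y * z = 1 then
        φ x * ψ y * starRingEnd ℂ (c z⁻¹) else 0) = (∑ g ∈ T, ‖c g‖ ^ 2 : ℝ) := by
      rw [sum_congr rfl fun x _ => sum_comm, sum_comm, ← s1]
      push_cast
      refine sum_congr rfl fun z hz => ?_
      rw [← Complex.mul_conj', hc, sum_mul]
      refine sum_congr rfl fun x hx => ?_
      have : ∀ y, x * y * z = 1 ↔ x⁻¹ * z⁻¹ = y := fun y => by
        rw [mul_eq_one_iff_eq_inv, inv_mul_eq_iff_eq_mul, eq_comm]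
      simp only [this, sum_ite_eq]
      rw [if_pos (mul_mem_mul (inv_mem_inv hx) (mem_inv'.mp hz))]
    simp only [e1, RCLike.norm_conj, s1 fun z => ‖c z‖ ^ 2] at h
    have n1 : 0 ≤ ∑ g ∈ T, ‖c g‖ ^ 2 := by positivity
    rw [Complex.norm_real, Real.norm_of_nonneg n1] at h
    have a1 : ∑' g, ‖φ g‖ ^ 2 = ∑ g ∈ F, ‖φ g‖ ^ 2 := tsum_eq_sum fun g hg => by simp [zero g hg]
    have a2 := hψ.sum_le_tsum (F⁻¹ * T) fun _ _ => sq_nonneg _
    have aux : ∀ s k a b : ℝ, 0 ≤ s → 0 ≤ k → 0 ≤ a → 0 ≤ b → s ≤ k * (√a * √b * √s) →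
        s ≤ k ^ 2 * a * b := by
      intro s k a b h1 h2 h3 h4 h5
      have := Real.sq_sqrt h1
      have := Real.sq_sqrt h3
      have := Real.sq_sqrt h4
      have e : (k * (√a * √b)) ^ 2 = k ^ 2 * a * b := by rw [mul_pow, mul_pow]; simp [*, mul_assoc]
      nlinarith [sq_nonneg (k * (√a * √b) - √s)]
    refine (aux _ _ _ _ n1 (by positivity) (by positivity) (by positivity) h).trans ?_
    rw [a1]
    gcongr
  have nn : ∀ g, 0 ≤ ‖∑' h, φ h * ψ (h⁻¹ * g)‖ ^ 2 := fun _ => sq_nonneg _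
  exact ⟨summable_of_sum_le nn key, by simpa using Real.tsum_le_of_sum_le nn key⟩

end Pool.Agent.Results.MP_37447d_al.Growth
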